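import Pool.Agent.Y228.HX.Stm

set_option autoImplicit false

/-!
# Project HX: the recurrence for a half-open simplicial cone
-/

namespace Pool.Agent.Y568.HX

open Pool.Agent.Y228.HX

/-! ### the shift -/

/-- the shift of sequences -/
noncomputable def U : (ℕ → PowerSeries ℂ) →ₗ[Polynomial ℂ] (ℕ → PowerSeries ℂ) where
  toFun Z := fun m => Z (m + 1)
  map_add' _ _ := rfl
  map_smul' _ _ := rfl

lemma U_pow (n : ℕ) (Z : ℕ → PowerSeries ℂ) (m : ℕ) : (U ^ n) Z m = Z (m + n) := by
  induction n generalizing Z m with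
  | zero => simp
  | succ n ih =>
    rw [pow_succ, Module.End.mul_apply, ih]
    change Z (m + n + 1) = _
    rfl

lemma smul_eq (c : Polynomial ℂ) (Z : PowerSeries ℂ) : c • Z = (c : PowerSeries ℂ) * Z := by
  rw [Algebra.smul_def]
  congr 1

lemma ann_of_poly (D : Polynomial (Polynomial ℂ)) (Z : ℕ → PowerSeries ℂ)
    (h0 : ∀ T0 : ℂ, T0 ≠ 0 → (D.coeff 0).eval T0 ≠ 0)
    (h : ∀ m, (Polynomial.aeval U D) Z m = 0) : Ann Z := by
  refine ⟨D.natDegree, D.coeff, h0, fun m => ?_⟩
  have h1 := h m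
  rw [Polynomial.aeval_eq_sum_range] at h1
  rw [LinearMap.sum_apply, Finset.sum_apply] at h1
  rw [← h1]
  refine Finset.sum_congr rfl fun k _ => ?_
  rw [LinearMap.smul_apply, Pi.smul_apply, U_pow, smul_eq]

/-! ### the cone -/

section cone

variable {A W : Type} [AddCommGroup A] [AddCommGroup W] [Module ℚ W]

lemma pr_add {p : ℕ} (s : Smp W p) (x y : W) : s.pr (x + y) = s.pr x + s.pr y := by
  unfold Smp.pr
  rw [← Finset.sum_add_distrib]
  refine Finset.sum_congr rfl fun i _ => ?_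
  rw [map_add, add_smul]

lemma pr_g {p : ℕ} (s : Smp W p) (j : Fin p) : s.pr (s.g j) = s.g j := by
  unfold Smp.pr
  rw [Finset.sum_eq_single j]
  · rw [s.dual, if_pos rfl, one_smul]
  · intro i _ hij
    rw [s.dual, if_neg hij, zero_smul]
  · intro h
    exact absurd (Finset.mem_univ j) h

/-- the truncated cones -/
def XE (ι : A →+ W) {p : ℕ} (s : Smp W p) (B E : Finset (Fin p)) (x : A) : Prop :=
  CX ι s B x ∧ ∀ i ∈ E, (i ∈ B → s.φ i (ι x) ≤ 1) ∧ (i ∉ B → s.φ i (ι x) < 1)

variable (ι : A →+ W) {p : ℕ} (s : Smp W p) (γ : Fin p → A) (B : Finset (Fin p))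

lemma phi_add (hγ : ∀ i, ι (γ i) = s.g i) (x : A) (i k : Fin p) :
    s.φ k (ι (x + γ i)) = s.φ k (ι x) + if k = i then 1 else 0 := by
  rw [map_add, map_add, hγ, s.dual]

lemma pr_iff (hγ : ∀ i, ι (γ i) = s.g i) (x : A) (i : Fin p) :
    s.pr (ι (x + γ i)) = ι (x + γ i) ↔ s.pr (ι x) = ι x := by
  rw [map_add, pr_add, hγ, pr_g]
  exact add_left_inj _

lemma XE_iff (hγ : ∀ i, ι (γ i) = s.g i) {E : Finset (Fin p)} {i : Fin p} (hi : i ∉ E) (x : A) :
    (XE ι s B E (x + γ i) ∧ ¬ XE ι s B (insert i E) (x + γ i)) ↔ XE ι s B E x := by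
  have hphi := phi_add ι s γ hγ x i
  have hii : s.φ i (ι (x + γ i)) = s.φ i (ι x) + 1 := by rw [hphi, if_pos rfl]
  have hki : ∀ k, k ≠ i → s.φ k (ι (x + γ i)) = s.φ k (ι x) := fun k hk => by
    rw [hphi, if_neg hk, add_zero]
  have hpr := pr_iff ι s γ hγ x i
  constructor
  · rintro ⟨⟨⟨h1, h2⟩, h3⟩, h4⟩
    have h5 : ¬ ((i ∈ B → s.φ i (ι (x + γ i)) ≤ 1) ∧ (i ∉ B → s.φ i (ι (x + γ i)) < 1)) := by
      intro h
      apply h4
      refine ⟨⟨h1, h2⟩, fun k hk => ?_⟩
      rcases Finset.mem_insert.1 hk with rfl | hk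
      · exact h
      · exact h3 k hk
    rw [hii] at h5
    refine ⟨⟨hpr.1 h1, fun k => ?_⟩, fun k hk => ?_⟩
    · by_cases hk : k = i
      · subst hk
        by_cases hB : k ∈ B
        · have h6 : ¬ (s.φ k (ι x) + 1 ≤ 1) := fun h => h5 ⟨fun _ => h, fun h' => absurd hB h'⟩
          push Not at h6
          constructor
          · linarith
          · intro _
            linarith
        · have h6 : ¬ (s.φ k (ι x) + 1 < 1) := fun h => h5 ⟨fun h' => absurd h' hB, fun _ => h⟩
          push Not at h6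
          exact ⟨by linarith, fun h => absurd h hB⟩
      · have := h2 k
        rw [hki k hk] at this
        exact this
    · have hk' : k ≠ i := fun h => hi (h ▸ hk)
      have := h3 k hk
      rw [hki k hk'] at this
      exact this
  · rintro ⟨⟨h1, h2⟩, h3⟩
    have hX : XE ι s B E (x + γ i) := by
      refine ⟨⟨hpr.2 h1, fun k => ?_⟩, fun k hk => ?_⟩
      · by_cases hk : k = i
        · subst hk
          rw [hii]
          have := (h2 k).1
          constructor
          · linarith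
          · intro _
            linarith
        · rw [hki k hk]
          exact h2 k
      · have hk' : k ≠ i := fun h => hi (h ▸ hk)
        rw [hki k hk']
        exact h3 k hk
    refine ⟨hX, fun h => ?_⟩
    have h4 := h.2 i (Finset.mem_insert_self i E)
    rw [hii] at h4
    have h5 := h2 i
    by_cases hB : i ∈ B
    · have := h4.1 hB
      have := h5.2 hB
      linarith
    · have := h4.2 hB
      linarith [h5.1]

lemma XE_mono {E : Finset (Fin p)} {i : Fin p} {x : A} (h : XE ι s B (insert i E) x) :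
    XE ι s B E x := ⟨h.1, fun k hk => h.2 k (Finset.mem_insert_of_mem hk)⟩

/-- a functional on the cone -/
lemma val_cone (hγ : ∀ i, ι (γ i) = s.g i) {w : W →ₗ[ℚ] ℚ} {wA : A →+ ℤ}
    (hw : ∀ x, w (ι x) = (wA x : ℚ)) {x : A} (hx : CX ι s B x) :
    (wA x : ℚ) = ∑ i, s.φ i (ι x) * (wA (γ i) : ℚ) := by
  have e : ι x = ∑ i, s.φ i (ι x) • s.g i := hx.1.symm
  rw [← hw]
  conv_lhs => rw [e]
  rw [map_sum]
  refine Finset.sum_congr rfl fun i _ => ?_
  rw [map_smul, smul_eq_mul, ← hw (γ i), hγ]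

lemma val_nonneg (hγ : ∀ i, ι (γ i) = s.g i) {w : W →ₗ[ℚ] ℚ} {wA : A →+ ℤ}
    (hw : ∀ x, w (ι x) = (wA x : ℚ)) (h0 : ∀ i, 0 ≤ wA (γ i)) {x : A} (hx : CX ι s B x) :
    0 ≤ wA x := by
  have h := val_cone ι s γ B hγ hw hx
  have h1 : (0 : ℚ) ≤ wA x := by
    rw [h]
    refine Finset.sum_nonneg fun i _ => mul_nonneg (hx.2 i).1 ?_
    exact_mod_cast h0 i
  exact_mod_cast h1

/-- the terms -/
noncomputable def tm (wtA alA mmA : A →+ ℤ) (q : ℕ) (E : Finset (Fin p)) (m t : ℕ) (x : A) : ℂ :=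
  open Classical in
    if XE ι s B E x ∧ mmA x = m ∧ alA x = t then (q : ℂ)⁻¹ ^ (wtA x).toNat else 0

/-- the series -/
noncomputable def ZE (wtA alA mmA : A →+ ℤ) (q : ℕ) (E : Finset (Fin p)) (m : ℕ) :
    PowerSeries ℂ := PowerSeries.mk fun t => ∑' x : A, tm ι s B wtA alA mmA q E m t x

variable (wtA alA mmA : A →+ ℤ) (q : ℕ)

lemma tm_of_mem {E : Finset (Fin p)} {m t : ℕ} {x : A}
    (h : XE ι s B E x ∧ mmA x = m ∧ alA x = t) :
    tm ι s B wtA alA mmA q E m t x = (q : ℂ)⁻¹ ^ (wtA x).toNat := by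
  unfold tm
  rw [if_pos h]

lemma tm_of_not {E : Finset (Fin p)} {m t : ℕ} {x : A}
    (h : ¬ (XE ι s B E x ∧ mmA x = m ∧ alA x = t)) :
    tm ι s B wtA alA mmA q E m t x = 0 := by
  unfold tm
  rw [if_neg h]

lemma tm_summable (hsum : ∀ m t : ℕ, Summable fun x : A => open Classical in
      if CX ι s B x ∧ mmA x = m ∧ alA x = t then (q : ℝ)⁻¹ ^ (wtA x).toNat else 0)
    (E : Finset (Fin p)) (m t : ℕ) : Summable (tm ι s B wtA alA mmA q E m t) := by
  refine Summable.of_norm_bounded (hsum m t) fun x => ?_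
  by_cases h : XE ι s B E x ∧ mmA x = m ∧ alA x = t
  · rw [tm_of_mem ι s B wtA alA mmA q h, if_pos ⟨h.1.1, h.2⟩, norm_pow, norm_inv,
      Complex.norm_natCast]
  · rw [tm_of_not ι s B wtA alA mmA q h, norm_zero]
    split_ifs
    · positivity
    · exact le_rfl

lemma step (wt al : W →ₗ[ℚ] ℚ) (hγ : ∀ i, ι (γ i) = s.g i)
    (hwt : ∀ x, wt (ι x) = (wtA x : ℚ)) (hal : ∀ x, al (ι x) = (alA x : ℚ))
    (h0 : ∀ i, 0 ≤ wtA (γ i) ∧ 0 ≤ alA (γ i) ∧ 0 ≤ mmA (γ i))
    (hsum : ∀ m t : ℕ, Summable fun x : A => open Classical in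
      if CX ι s B x ∧ mmA x = m ∧ alA x = t then (q : ℝ)⁻¹ ^ (wtA x).toNat else 0)
    {E : Finset (Fin p)} {i : Fin p} (hi : i ∉ E) (m : ℕ) :
    ZE ι s B wtA alA mmA q E (m + (mmA (γ i)).toNat) =
      ((Polynomial.C ((q : ℂ)⁻¹ ^ (wtA (γ i)).toNat) * Polynomial.X ^ (alA (γ i)).toNat :
        Polynomial ℂ) : PowerSeries ℂ) * ZE ι s B wtA alA mmA q E m +
      ZE ι s B wtA alA mmA q (insert i E) (m + (mmA (γ i)).toNat) := by
  ext t
  set a : ℕ := (alA (γ i)).toNat with ha
  set n : ℕ := (wtA (γ i)).toNat with hn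
  set mi : ℕ := (mmA (γ i)).toNat with hmi
  have haZ : (a : ℤ) = alA (γ i) := Int.toNat_of_nonneg (h0 i).2.1
  have hnZ : (n : ℤ) = wtA (γ i) := Int.toNat_of_nonneg (h0 i).1
  have hmZ : (mi : ℤ) = mmA (γ i) := Int.toNat_of_nonneg (h0 i).2.2
  -- the second part
  set g : A → ℂ := fun x => open Classical in
    if a ≤ t then (q : ℂ)⁻¹ ^ n * tm ι s B wtA alA mmA q E m (t - a) x else 0 with hg
  have hsplit : ∀ x : A, tm ι s B wtA alA mmA q E (m + mi) t (x + γ i) =
      g x + tm ι s B wtA alA mmA q (insert i E) (m + mi) t (x + γ i) := by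
    intro x
    have hmm : mmA (x + γ i) = ((m + mi : ℕ) : ℤ) ↔ mmA x = m := by
      rw [map_add, ← hmZ]; push_cast; constructor <;> intro h <;> linarith
    have hx1 := XE_iff ι s γ B hγ hi x
    by_cases hX : XE ι s B E x
    · -- then x + γ i is in X_E but not in X_{E u i}
      obtain ⟨hXa, hXb⟩ := hx1.2 hX
      have hwt0 := val_nonneg ι s γ B hγ hwt (fun k => (h0 k).1) hX.1
      have hal0 := val_nonneg ι s γ B hγ hal (fun k => (h0 k).2.1) hX.1
      have hw : (wtA (x + γ i)).toNat = n + (wtA x).toNat := by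
        rw [map_add, ← hnZ]
        omega
      rw [tm_of_not ι s B wtA alA mmA q (E := insert i E) (fun h => hXb h.1), add_zero]
      by_cases hm : mmA x = m
      · by_cases hat : a ≤ t
        · by_cases hal' : alA x = ((t - a : ℕ) : ℤ)
          · have : alA (x + γ i) = t := by
              rw [map_add, ← haZ, hal']
              omega
            rw [tm_of_mem ι s B wtA alA mmA q ⟨hXa, hmm.2 hm, this⟩, hw, hg]
            simp only [if_pos hat]
            rw [tm_of_mem ι s B wtA alA mmA q ⟨hX, hm, hal'⟩, pow_add]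
          · have : ¬ alA (x + γ i) = t := by
              intro h
              apply hal'
              rw [map_add, ← haZ] at h
              omega
            rw [tm_of_not ι s B wtA alA mmA q (fun h => this h.2.2), hg]
            simp only [if_pos hat]
            rw [tm_of_not ι s B wtA alA mmA q (fun h => hal' h.2.2), mul_zero]
        · have : ¬ alA (x + γ i) = t := by
            intro h
            rw [map_add, ← haZ] at h
            omega
          rw [tm_of_not ι s B wtA alA mmA q (fun h => this h.2.2), hg]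
          simp only [if_neg hat]
      · rw [tm_of_not ι s B wtA alA mmA q (fun h => hm (hmm.1 h.2.1)), hg]
        simp only
        split_ifs
        · rw [tm_of_not ι s B wtA alA mmA q (fun h => hm h.2.1), mul_zero]
        · rfl
    · have hgx : g x = 0 := by
        rw [hg]
        simp only
        split_ifs
        · rw [tm_of_not ι s B wtA alA mmA q (fun h => hX h.1), mul_zero]
        · rfl
      rw [hgx, zero_add]
      have h2 : XE ι s B E (x + γ i) ↔ XE ι s B (insert i E) (x + γ i) := by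
        constructor
        · intro h
          by_contra hne
          exact hX (hx1.1 ⟨h, hne⟩)
        · exact XE_mono ι s B
      by_cases hc : XE ι s B E (x + γ i) ∧ mmA (x + γ i) = ((m + mi : ℕ) : ℤ) ∧ alA (x + γ i) = t
      · rw [tm_of_mem ι s B wtA alA mmA q hc,
          tm_of_mem ι s B wtA alA mmA q (E := insert i E) ⟨h2.1 hc.1, hc.2⟩]
      · rw [tm_of_not ι s B wtA alA mmA q hc,
          tm_of_not ι s B wtA alA mmA q (E := insert i E) (fun h => hc ⟨h2.2 h.1, h.2⟩)]
  have hS := tm_summable ι s B wtA alA mmA q hsum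
  have hshift : ∀ (F : Finset (Fin p)) (m' t' : ℕ),
      ∑' x, tm ι s B wtA alA mmA q F m' t' x = ∑' x, tm ι s B wtA alA mmA q F m' t' (x + γ i) :=
    fun F m' t' => ((Equiv.addRight (γ i)).tsum_eq _).symm
  have hS2 : Summable fun x => tm ι s B wtA alA mmA q (insert i E) (m + mi) t (x + γ i) :=
    (Equiv.addRight (γ i)).summable_iff.2 (hS (insert i E) (m + mi) t)
  have hS3 : Summable g := by
    rw [hg]
    by_cases hat : a ≤ t
    · simp only [if_pos hat]
      exact (hS E m (t - a)).mul_left _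
    · simp only [if_neg hat]
      exact summable_zero
  have hgsum : ∑' x, g x = if a ≤ t then (q : ℂ)⁻¹ ^ n *
      ∑' x, tm ι s B wtA alA mmA q E m (t - a) x else 0 := by
    rw [hg]
    by_cases hat : a ≤ t
    · simp only [if_pos hat]
      exact tsum_mul_left
    · simp only [if_neg hat]
      exact tsum_zero
  rw [map_add, Polynomial.coe_mul, Polynomial.coe_C, Polynomial.coe_pow, Polynomial.coe_X,
    mul_assoc, PowerSeries.coeff_C_mul, PowerSeries.coeff_X_pow_mul']
  unfold ZE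
  simp only [PowerSeries.coeff_mk]
  rw [hshift E (m + mi) t, hshift (insert i E) (m + mi) t]
  simp only [hsplit]
  rw [hS3.tsum_add hS2, hgsum]
  congr 1
  split_ifs
  · rfl
  · rw [mul_zero]

end cone

theorem t_CONE : S_CONE := by
  intro A W _ _ _ ι p s γ B wt al mm wtA alA mmA q hq hγ hwt hal hmm h0 hex hsum
  classical
  set c : Fin p → Polynomial ℂ := fun i =>
    Polynomial.C ((q : ℂ)⁻¹ ^ (wtA (γ i)).toNat) * Polynomial.X ^ (alA (γ i)).toNat with hc
  set mi : Fin p → ℕ := fun i => (mmA (γ i)).toNat with hmi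
  have hmZ : ∀ i, ((mi i : ℕ) : ℤ) = mmA (γ i) := fun i => Int.toNat_of_nonneg (h0 i).2.2
  set P : Finset (Fin p) := Finset.univ.filter fun i => 0 < mmA (γ i) with hP
  set D : Finset (Fin p) → Polynomial (Polynomial ℂ) := fun Q =>
    ∏ i ∈ Q, (Polynomial.X ^ mi i - Polynomial.C (c i)) with hD
  set Z : ℕ → PowerSeries ℂ := ZE ι s B wtA alA mmA q ∅ with hZ
  have hZeq : (fun m : ℕ => PowerSeries.mk fun t => ∑' x : A, open Classical in
      if CX ι s B x ∧ mmA x = m ∧ alA x = t then (q : ℂ)⁻¹ ^ (wtA x).toNat else 0) = Z := by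
    funext m
    rw [hZ]
    unfold ZE
    congr 1
    funext t
    refine tsum_congr fun x => ?_
    by_cases h : CX ι s B x ∧ mmA x = m ∧ alA x = t
    · rw [if_pos h, tm_of_mem ι s B wtA alA mmA q (E := ∅)
        ⟨⟨h.1, fun i hi => absurd hi (Finset.notMem_empty i)⟩, h.2⟩]
    · rw [if_neg h, tm_of_not ι s B wtA alA mmA q (E := ∅) (fun h' => h ⟨h'.1.1, h'.2⟩)]
  rw [hZeq]
  have hind : ∀ Q : Finset (Fin p), ∀ m, (Polynomial.aeval U (D Q)) Z m =
      ZE ι s B wtA alA mmA q Q (m + ∑ i ∈ Q, mi i) := by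
    intro Q
    induction Q using Finset.induction_on with
    | empty =>
      intro m
      simp [hD, hZ]
    | insert i Q hi ih =>
      intro m
      have e1 : D (insert i Q) = (Polynomial.X ^ mi i - Polynomial.C (c i)) * D Q := by
        rw [hD]
        simp only
        rw [Finset.prod_insert hi]
      rw [e1, map_mul, Module.End.mul_apply, map_sub, map_pow, Polynomial.aeval_X,
        Polynomial.aeval_C, LinearMap.sub_apply, Pi.sub_apply, U_pow,
        Module.algebraMap_end_apply, Pi.smul_apply, ih, ih, smul_eq, Finset.sum_insert hi]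
      have h1 := step ι s γ B wtA alA mmA q wt al hγ hwt hal h0 hsum hi (m + ∑ i ∈ Q, mi i)
      have e2 : m + mi i + ∑ i ∈ Q, mi i = m + ∑ i ∈ Q, mi i + (mmA (γ i)).toNat := by
        rw [hmi]; ring
      have e3 : m + (mi i + ∑ i ∈ Q, mi i) = m + ∑ i ∈ Q, mi i + (mmA (γ i)).toNat := by
        rw [hmi]; ring
      rw [e2, e3, h1, hc]
      simp only
      ring
  refine ann_of_poly (D P) Z ?_ ?_
  · intro T0 hT0
    have hq0 : (q : ℂ)⁻¹ ≠ 0 := inv_ne_zero (by exact_mod_cast (by omega : q ≠ 0))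
    have e1 : (D P).coeff 0 = ∏ i ∈ P, (- c i) := by
      rw [hD]
      simp only
      rw [Polynomial.coeff_zero_prod]
      refine Finset.prod_congr rfl fun i hi => ?_
      have hpos : 0 < mi i := by
        have h1 := (Finset.mem_filter.1 hi).2
        have h2 := hmZ i
        omega
      rw [Polynomial.coeff_sub, Polynomial.coeff_C_zero, Polynomial.coeff_X_pow,
        if_neg (by omega), zero_sub]
    rw [e1, Polynomial.eval_prod]
    refine Finset.prod_ne_zero_iff.2 fun i _ => ?_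
    rw [hc]
    simp only [Polynomial.eval_neg, Polynomial.eval_mul, Polynomial.eval_C, Polynomial.eval_pow,
      Polynomial.eval_X]
    exact neg_ne_zero.2 (mul_ne_zero (pow_ne_zero _ hq0) (pow_ne_zero _ hT0))
  · intro m
    rw [hind P m]
    unfold ZE
    ext t
    rw [PowerSeries.coeff_mk, map_zero]
    refine (tsum_congr fun x => ?_).trans tsum_zero
    refine tm_of_not ι s B wtA alA mmA q fun h => ?_
    obtain ⟨hX, hm, -⟩ := h
    have hv := val_cone ι s γ B hγ hmm hX.1
    obtain ⟨i0, hi0B, hi0⟩ := hex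
    have hi0P : i0 ∈ P := Finset.mem_filter.2 ⟨Finset.mem_univ _, hi0⟩
    have h1 : ∑ i, s.φ i (ι x) * (mmA (γ i) : ℚ) = ∑ i ∈ P, s.φ i (ι x) * (mmA (γ i) : ℚ) := by
      symm
      refine Finset.sum_subset (Finset.subset_univ P) fun i _ hiP => ?_
      have h2 : ¬ 0 < mmA (γ i) := fun h => hiP (Finset.mem_filter.2 ⟨Finset.mem_univ _, h⟩)
      have h3 : mmA (γ i) = 0 := le_antisymm (not_lt.1 h2) (h0 i).2.2
      rw [h3]
      simp
    have h2 : ∑ i ∈ P, s.φ i (ι x) * (mmA (γ i) : ℚ) < ∑ i ∈ P, (mmA (γ i) : ℚ) := by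
      refine Finset.sum_lt_sum (fun i hi => ?_) ⟨i0, hi0P, ?_⟩
      · have h3 : s.φ i (ι x) ≤ 1 := by
          by_cases hB : i ∈ B
          · exact (hX.2 i hi).1 hB
          · exact ((hX.2 i hi).2 hB).le
        have h4 : (0 : ℚ) ≤ mmA (γ i) := by exact_mod_cast (h0 i).2.2
        nlinarith
      · have h3 := (hX.2 i0 hi0P).2 hi0B
        have h4 : (0 : ℚ) < mmA (γ i0) := by exact_mod_cast hi0
        nlinarith
    have h3 : ((m + ∑ i ∈ P, mi i : ℕ) : ℚ) = m + ∑ i ∈ P, (mmA (γ i) : ℚ) := by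
      push_cast
      congr 1
      refine Finset.sum_congr rfl fun i _ => ?_
      have := hmZ i
      rw [← this]
      push_cast
      rfl
    have h4 : (mmA x : ℚ) = ((m + ∑ i ∈ P, mi i : ℕ) : ℚ) := by
      rw [hm]
      push_cast
      rfl
    have h5 : (0 : ℚ) ≤ m := Nat.cast_nonneg m
    rw [← h4] at h3
    linarith

end Pool.Agent.Y568.HX
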